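import Pool.Agent.Helper83.ND.M_Fw

/-!
# Project ND, module Eq: the integral is nearly constant in `y`
-/

set_option autoImplicit false

noncomputable section

namespace Pool.Agent.Helper83.ND

open Pool.Agent.Helper76.ND Finset

theorem II_nonneg (hg : ∀ v : ℝ, 0 ≤ gg v ∧ gg v ≤ 1 / 4 ∧ 0 ≤ v * gg v ∧ v * gg v ≤ 1 / 4)
    {y : ℝ} (hy : 0 < y) {f : ℕ → ℝ} (hf : ∀ N, 0 ≤ f N ∧ f N ≤ 1) : 0 ≤ II y f := by
  unfold II
  exact Finset.sum_nonneg (fun N _ => mul_nonneg (mu_nonneg hg hy N) (hf N).1)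

theorem II_le (hg : ∀ v : ℝ, 0 ≤ gg v ∧ gg v ≤ 1 / 4 ∧ 0 ≤ v * gg v ∧ v * gg v ≤ 1 / 4)
    {y : ℝ} (hy : 0 < y) {f : ℕ → ℝ} (hf : ∀ N, 0 ≤ f N ∧ f N ≤ 1) : II y f ≤ 1 / 2 := by
  have hfl : (⌊2 * y⌋₊ : ℝ) ≤ 2 * y := Nat.floor_le (by linarith)
  have h1 : II y f ≤ ∑ N ∈ Icc 1 ⌊2 * y⌋₊, 1 / (4 * y) := by
    unfold II
    apply Finset.sum_le_sum
    intro N _
    calc mu y N * f N ≤ mu y N * 1 := mul_le_mul_of_nonneg_left (hf N).2 (mu_nonneg hg hy N)
      _ ≤ 1 / (4 * y) := by rw [mul_one]; exact mu_le hg hy N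
  rw [Finset.sum_const, Nat.card_Icc, Nat.add_sub_cancel, nsmul_eq_mul] at h1
  refine le_trans h1 ?_
  calc (⌊2 * y⌋₊ : ℝ) * (1 / (4 * y)) ≤ (2 * y) * (1 / (4 * y)) :=
        mul_le_mul_of_nonneg_right hfl (by positivity)
    _ = 1 / 2 := by field_simp; norm_num

theorem eq_aux (hPr : StPr) (hFw : StFw) (hLi : StLi) (hEr : StEr) (hMn : StMn)
    (hSd : StSd) : ∃ x0 C : ℝ, 3 ≤ x0 ∧ 0 < C ∧ ∀ (x y : ℝ) (B : ℕ) (f : ℕ → ℝ), x0 ≤ x →
      YR x y → (∀ N, 0 ≤ f N ∧ f N ≤ 1) → (B : ℝ) ≤ x → Inv B f →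
      |II y f - JJ x ⌈Real.log x ^ (1 / 8 : ℝ)⌉₊ f| ≤ C * Real.log x ^ (-(1 / 1600) : ℝ) := by
  obtain ⟨x1, hx13, hP⟩ := hPr
  obtain ⟨x2, C1, hx23, hC1, hFw⟩ := hFw
  obtain ⟨x3, C2, hx33, hC2, hLi⟩ := hLi
  obtain ⟨x4, C4, hx43, hC4, hMn⟩ := hMn
  obtain ⟨C3, hC3, hSd⟩ := hSd
  refine ⟨max (max (max x1 x2) (max x3 x4)) (Real.exp 65536),
    C1 + C2 + 15 * (15 / 2 * C3 + 12) + C4, ?_, by positivity, ?_⟩
  · exact le_trans hx13 (le_trans (le_max_left _ _) (le_trans (le_max_left _ _) (le_max_left _ _)))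
  intro x y B f hx hY hf hB hI
  have hxx1 : x1 ≤ x := le_trans (le_trans (le_max_left _ _) (le_trans (le_max_left _ _)
    (le_max_left _ _))) hx
  have hxx2 : x2 ≤ x := le_trans (le_trans (le_max_right _ _) (le_trans (le_max_left _ _)
    (le_max_left _ _))) hx
  have hxx3 : x3 ≤ x := le_trans (le_trans (le_max_left _ _) (le_trans (le_max_right _ _)
    (le_max_left _ _))) hx
  have hxx4 : x4 ≤ x := le_trans (le_trans (le_max_right _ _) (le_trans (le_max_right _ _)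
    (le_max_left _ _))) hx
  have hxe : Real.exp 65536 ≤ x := le_trans (le_max_right _ _) hx
  have hx0 : 0 < x := lt_of_lt_of_le (Real.exp_pos _) hxe
  have hLb : 65536 ≤ Real.log x := (Real.le_log_iff_exp_le hx0).2 hxe
  obtain ⟨p1, p2, p3, p4, p5, p6, p7, p8, p9, p10, p11, p12, p13, p14⟩ := hP x y hxx1 hY
  have hx3 : 3 ≤ x := le_trans hx13 hxx1
  have hy0 : 0 < y := by linarith
  set L := Real.log x with hL
  have hL0 : 0 < L := by linarith
  set v := L ^ (1 / 8 : ℝ) with hv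
  have hv0 : 0 < v := Real.rpow_pos_of_pos hL0 _
  have hv8 : v ^ 8 = L := by
    rw [hv, ← Real.rpow_natCast, ← Real.rpow_mul hL0.le]; norm_num
  have hv4 : 4 ≤ v := by
    by_contra hcon
    push Not at hcon
    have : v ^ 8 < 4 ^ 8 := pow_lt_pow_left₀ hcon hv0.le (by norm_num)
    rw [hv8] at this
    norm_num at this
    linarith
  set w := L ^ (-(1 / 1600) : ℝ) with hw
  have hw0 : 0 < w := Real.rpow_pos_of_pos hL0 _
  set m := ⌈v⌉₊ with hm
  have hm1 : v ≤ m := Nat.le_ceil v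
  have hm2 : (m : ℝ) ≤ 2 * v := by
    have := Nat.ceil_lt_add_one hv0.le
    linarith
  have hm0 : 1 ≤ m := by
    have : (1 : ℝ) ≤ m := by linarith
    exact_mod_cast this
  have hLw : ∀ e : ℝ, e ≤ -(1 / 1600) → L ^ e ≤ w := by
    intro e he
    exact Real.rpow_le_rpow_of_exponent_le p1 he
  have hLinv : 1 / L ≤ w := by
    have := hLw (-1) (by norm_num)
    rwa [Real.rpow_neg_one, ← one_div] at this
  have h3m : (3 : ℝ) ^ m ≤ x ^ (1 / 2000 : ℝ) := by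
    have h1 : (m : ℝ) * Real.log 3 ≤ 1 / 2000 * L := by
      have hl3 : Real.log 3 ≤ 11 / 10 := by
        have := Real.log_three_lt_d9
        linarith
      have hl30 : 0 ≤ Real.log 3 := Real.log_nonneg (by norm_num)
      have h2 : (m : ℝ) * Real.log 3 ≤ 2 * v * (11 / 10) :=
        mul_le_mul hm2 hl3 hl30 (by positivity)
      have h3 : (4 : ℝ) ^ 7 ≤ v ^ 7 := pow_le_pow_left₀ (by norm_num) hv4 7
      have h4 : L = v ^ 7 * v := by rw [← hv8]; ring
      have h5 : (4 : ℝ) ^ 7 * v ≤ v ^ 7 * v := mul_le_mul_of_nonneg_right h3 hv0.le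
      rw [h4]
      norm_num at h5
      linarith
    rw [← Real.log_le_log_iff (by positivity) (Real.rpow_pos_of_pos hx0 _), Real.log_pow,
      Real.log_rpow hx0]
    exact h1
  have h32 : (3 : ℝ) ^ m * 2 ^ (t1 x y) ≤ y := by
    have h1 : (3 : ℝ) ^ m * 2 ^ (t1 x y) ≤ x ^ (1 / 2000 : ℝ) * x ^ (1 / 4 : ℝ) :=
      mul_le_mul h3m p5 (by positivity) (Real.rpow_pos_of_pos hx0 _).le
    rw [← Real.rpow_add hx0] at h1
    have h2 : x ^ (1 / 2000 + 1 / 4 : ℝ) ≤ x := by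
      conv_rhs => rw [← Real.rpow_one x]
      exact Real.rpow_le_rpow_of_exponent_le (by linarith) (by norm_num)
    linarith
  have e1 := hFw x y B f hxx2 hY hf hB hI
  have e2 := hLi x y f hxx3 hY hf
  have e3 := hEr x y m f (by linarith) hy0 hf h32
  have e4 := hMn x y m f hxx4 hY hf h3m
  have e5 := hSd m (t1 x y) hm0
  rw [← hL] at e1 e2 e3 e4
  -- first
  have f1 : |II y f - Aw x y f| ≤ C1 * w :=
    le_trans e1 (mul_le_mul_of_nonneg_left (hLw _ (by norm_num)) hC1.le)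
  have f2 : |Aw x y f - Ag x y f| ≤ C2 * w := by
    refine le_trans e2 ?_
    rw [div_eq_mul_one_div]
    exact mul_le_mul_of_nonneg_left hLinv hC2.le
  have f4 : |Am x y m f - JJ x m f| ≤ C4 * w := by
    refine le_trans e4 ?_
    rw [div_eq_mul_one_div]
    exact mul_le_mul_of_nonneg_left hLinv hC4.le
  -- third
  have hrho : 0 < rho := by linarith
  have g1 : rho / (L / 100) ≤ 15 / L := by
    have : rho / (L / 100) = 100 * rho / L := by field_simp
    rw [this]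
    exact div_le_div_of_nonneg_right (by linarith) hL0.le
  have hmr : (m : ℝ) ^ (-(1 / 200) : ℝ) ≤ w := by
    have h1 : (m : ℝ) ^ (-(1 / 200) : ℝ) ≤ v ^ (-(1 / 200) : ℝ) :=
      Real.rpow_le_rpow_of_nonpos hv0 hm1 (by norm_num)
    refine le_trans h1 (le_of_eq ?_)
    rw [hv, ← Real.rpow_mul hL0.le, hw]
    norm_num
  have hsq : Real.sqrt (t1 x y : ℝ) ≤ v ^ 4 := by
    have h1 : Real.sqrt (t1 x y : ℝ) ≤ Real.sqrt L := Real.sqrt_le_sqrt (by linarith)
    refine le_trans h1 (le_of_eq ?_)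
    rw [← hv8]
    rw [show v ^ 8 = (v ^ 4) ^ 2 by ring]
    exact Real.sqrt_sq (by positivity)
  have ht1L : (t1 x y : ℝ) ≤ L := by linarith
  have g2 : C3 * ((m : ℝ) + (t1 x y : ℝ) * (m : ℝ) ^ (-(1 / 200) : ℝ) +
      (m : ℝ) * Real.sqrt (t1 x y : ℝ)) ≤ C3 * (5 * (L * w)) := by
    apply mul_le_mul_of_nonneg_left _ hC3.le
    have a1 : (m : ℝ) ≤ 2 * (L * w) := by
      have h1 := hLw (-(7 / 8)) (by norm_num)
      have h2 : v = L * L ^ (-(7 / 8) : ℝ) := by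
        have : L * L ^ (-(7 / 8) : ℝ) = L ^ (1 : ℝ) * L ^ (-(7 / 8) : ℝ) := by rw [Real.rpow_one]
        rw [this, ← Real.rpow_add hL0, hv]
        norm_num
      have h3 : v ≤ L * w := by
        conv_lhs => rw [h2]
        exact mul_le_mul_of_nonneg_left h1 hL0.le
      linarith
    have a2 : (t1 x y : ℝ) * (m : ℝ) ^ (-(1 / 200) : ℝ) ≤ L * w :=
      mul_le_mul ht1L hmr (Real.rpow_nonneg (Nat.cast_nonneg _) _) hL0.le
    have a3 : (m : ℝ) * Real.sqrt (t1 x y : ℝ) ≤ 2 * (L * w) := by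
      have h1 := hLw (-(3 / 8)) (by norm_num)
      have h2 : v * v ^ 4 = L * L ^ (-(3 / 8) : ℝ) := by
        have : L * L ^ (-(3 / 8) : ℝ) = L ^ (1 : ℝ) * L ^ (-(3 / 8) : ℝ) := by rw [Real.rpow_one]
        rw [this, ← Real.rpow_add hL0]
        rw [show v * v ^ 4 = v ^ 5 by ring, hv, ← Real.rpow_natCast, ← Real.rpow_mul hL0.le]
        norm_num
      have h3 : v * v ^ 4 ≤ L * w := by
        rw [h2]
        exact mul_le_mul_of_nonneg_left h1 hL0.le
      have h4 : (m : ℝ) * Real.sqrt (t1 x y : ℝ) ≤ 2 * v * v ^ 4 :=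
        mul_le_mul hm2 hsq (Real.sqrt_nonneg _) (by positivity)
      linarith
    linarith
  have hSS0 : ∑ t ∈ range (t1 x y + 1), ∑ k ∈ Icc m t, Del m k t ≤ C3 * (5 * (L * w)) :=
    le_trans e5 g2
  have f3 : |Ag x y f - Am x y m f| ≤ 15 * (15 / 2 * C3 + 12) * w := by
    refine le_trans e3 ?_
    have h1 : 3 / 2 * ∑ t ∈ range (t1 x y + 1), ∑ k ∈ Icc m t, Del m k t + 6 * (m : ℝ) ≤
        (15 / 2 * C3 + 12) * (L * w) := by
      have a1 : (m : ℝ) ≤ 2 * (L * w) := by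
        have h1 := hLw (-(7 / 8)) (by norm_num)
        have h2 : v = L * L ^ (-(7 / 8) : ℝ) := by
          have : L * L ^ (-(7 / 8) : ℝ) = L ^ (1 : ℝ) * L ^ (-(7 / 8) : ℝ) := by
            rw [Real.rpow_one]
          rw [this, ← Real.rpow_add hL0, hv]
          norm_num
        have h3 : v ≤ L * w := by
          conv_lhs => rw [h2]
          exact mul_le_mul_of_nonneg_left h1 hL0.le
        linarith
      have h9 : 3 / 2 * ∑ t ∈ range (t1 x y + 1), ∑ k ∈ Icc m t, Del m k t ≤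
          3 / 2 * (C3 * (5 * (L * w))) := mul_le_mul_of_nonneg_left hSS0 (by norm_num)
      have h10 : 3 / 2 * (C3 * (5 * (L * w))) = 15 / 2 * C3 * (L * w) := by ring
      have h11 : (15 / 2 * C3 + 12) * (L * w) = 15 / 2 * C3 * (L * w) + 12 * (L * w) := by ring
      linarith
    have hnn : 0 ≤ (15 / 2 * C3 + 12) * (L * w) := by positivity
    calc rho / (L / 100) *
        (3 / 2 * ∑ t ∈ range (t1 x y + 1), ∑ k ∈ Icc m t, Del m k t + 6 * (m : ℝ)) ≤
        rho / (L / 100) * ((15 / 2 * C3 + 12) * (L * w)) :=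
          mul_le_mul_of_nonneg_left h1 (by positivity)
      _ ≤ 15 / L * ((15 / 2 * C3 + 12) * (L * w)) := mul_le_mul_of_nonneg_right g1 hnn
      _ = 15 * (15 / 2 * C3 + 12) * w := by field_simp
  have htot : II y f - JJ x m f = (II y f - Aw x y f) + (Aw x y f - Ag x y f) +
      (Ag x y f - Am x y m f) + (Am x y m f - JJ x m f) := by ring
  rw [htot]
  have t1' := abs_add_le ((II y f - Aw x y f) + (Aw x y f - Ag x y f) +
      (Ag x y f - Am x y m f)) (Am x y m f - JJ x m f)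
  have t2' := abs_add_le ((II y f - Aw x y f) + (Aw x y f - Ag x y f)) (Ag x y f - Am x y m f)
  have t3' := abs_add_le (II y f - Aw x y f) (Aw x y f - Ag x y f)
  have hfin : (C1 + C2 + 15 * (15 / 2 * C3 + 12) + C4) * w =
    C1 * w + C2 * w + 15 * (15 / 2 * C3 + 12) * w + C4 * w := by ring
  rw [hfin]
  linarith

theorem hEq (hPr : StPr) (hPo : StPo) (hFw : StFw) (hLi : StLi) (hEr : StEr) (hMn : StMn)
    (hSd : StSd) : StEq := by
  obtain ⟨x0, C, hx03, hC, hmain⟩ := eq_aux hPr hFw hLi hEr hMn hSd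
  obtain ⟨-, hg, -⟩ := hPo
  refine ⟨2 * C + Real.log x0 ^ (1 / 1600 : ℝ), ?_, ?_⟩
  · have : 0 < Real.log x0 ^ (1 / 1600 : ℝ) :=
      Real.rpow_pos_of_pos (Real.log_pos (by linarith)) _
    linarith
  intro x y y' B f hx hY hY' hf hB hI
  have hx0 : 0 < x := by linarith
  have hlx : 0 < Real.log x := Real.log_pos (by linarith)
  have hlx0 : 0 < Real.log x0 := Real.log_pos (by linarith)
  have hy0 : 0 < y := lt_of_lt_of_le (Real.rpow_pos_of_pos hx0 _) hY.1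
  have hy0' : 0 < y' := lt_of_lt_of_le (Real.rpow_pos_of_pos hx0 _) hY'.1
  have hw0 : 0 < Real.log x ^ (-(1 / 1600) : ℝ) := Real.rpow_pos_of_pos hlx _
  have hc0 : 0 < Real.log x0 ^ (1 / 1600 : ℝ) := Real.rpow_pos_of_pos hlx0 _
  rcases le_total x0 x with h | h
  · have h1 := hmain x y B f h hY hf hB hI
    have h2 := hmain x y' B f h hY' hf hB hI
    have h3 : II y f - II y' f = (II y f - JJ x ⌈Real.log x ^ (1 / 8 : ℝ)⌉₊ f) -
      (II y' f - JJ x ⌈Real.log x ^ (1 / 8 : ℝ)⌉₊ f) := by ring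
    rw [h3]
    refine le_trans (abs_sub _ _) ?_
    have h4 : 0 < Real.log x0 ^ (1 / 1600 : ℝ) * Real.log x ^ (-(1 / 1600) : ℝ) := by positivity
    have h5 : (2 * C + Real.log x0 ^ (1 / 1600 : ℝ)) * Real.log x ^ (-(1 / 1600) : ℝ) =
      C * Real.log x ^ (-(1 / 1600) : ℝ) + C * Real.log x ^ (-(1 / 1600) : ℝ) +
        Real.log x0 ^ (1 / 1600 : ℝ) * Real.log x ^ (-(1 / 1600) : ℝ) := by ring
    rw [h5]
    linarith
  · have h1 := II_nonneg hg hy0 hf
    have h2 := II_le hg hy0 hf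
    have h3 := II_nonneg hg hy0' hf
    have h4 := II_le hg hy0' hf
    have h5 : |II y f - II y' f| ≤ 1 := by
      rw [abs_le]; constructor <;> linarith
    have h6 : Real.log x0 ^ (-(1 / 1600) : ℝ) ≤ Real.log x ^ (-(1 / 1600) : ℝ) :=
      Real.rpow_le_rpow_of_nonpos hlx (Real.log_le_log hx0 h) (by norm_num)
    have h7 : Real.log x0 ^ (1 / 1600 : ℝ) * Real.log x0 ^ (-(1 / 1600) : ℝ) = 1 := by
      rw [← Real.rpow_add hlx0]; norm_num
    have h8 : 1 ≤ Real.log x0 ^ (1 / 1600 : ℝ) * Real.log x ^ (-(1 / 1600) : ℝ) :=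
      le_trans h7.symm.le (mul_le_mul_of_nonneg_left h6 hc0.le)
    have h9 : 0 < 2 * C * Real.log x ^ (-(1 / 1600) : ℝ) := by positivity
    have h10 : (2 * C + Real.log x0 ^ (1 / 1600 : ℝ)) * Real.log x ^ (-(1 / 1600) : ℝ) =
      2 * C * Real.log x ^ (-(1 / 1600) : ℝ) +
        Real.log x0 ^ (1 / 1600 : ℝ) * Real.log x ^ (-(1 / 1600) : ℝ) := by ring
    rw [h10]
    linarith

end Pool.Agent.Helper83.ND
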