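import Pool.Agent.Helper76.ND.StE

/-!
# Project ND, module Vi: visits to the window
-/

set_option autoImplicit false

noncomputable section

namespace Pool.Agent.Helper83.ND

open Pool.Agent.Helper76.ND Finset

/-- number of naturals in a real interval, upper bound -/
theorem card_up {a b : ℝ} (hb : 0 ≤ b) (hab : a ≤ b + 1) :
    ((Icc ⌈a⌉₊ ⌊b⌋₊).card : ℝ) ≤ b - a + 1 := by
  rw [Nat.card_Icc]
  have h1 : a ≤ (⌈a⌉₊ : ℝ) := Nat.le_ceil a
  have h2 : (⌊b⌋₊ : ℝ) ≤ b := Nat.floor_le hb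
  by_cases h : ⌈a⌉₊ ≤ ⌊b⌋₊ + 1
  · rw [Nat.cast_sub h]; push_cast; linarith
  · rw [Nat.sub_eq_zero_of_le (by omega)]; push_cast; linarith

/-- number of naturals in a real interval, lower bound -/
theorem card_lo {a b : ℝ} (ha : 0 ≤ a) :
    b - a - 1 ≤ ((Icc ⌈a⌉₊ ⌊b⌋₊).card : ℝ) := by
  rw [Nat.card_Icc]
  have h1 : (⌈a⌉₊ : ℝ) < a + 1 := Nat.ceil_lt_add_one ha
  have h2 : b < (⌊b⌋₊ : ℝ) + 1 := Nat.lt_floor_add_one b
  have h3 : ((⌊b⌋₊ + 1 : ℕ) : ℝ) ≤ ((⌊b⌋₊ + 1 - ⌈a⌉₊ : ℕ) : ℝ) + (⌈a⌉₊ : ℝ) := by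
    rw [← Nat.cast_add]
    exact_mod_cast (by omega : ⌊b⌋₊ + 1 ≤ (⌊b⌋₊ + 1 - ⌈a⌉₊) + ⌈a⌉₊)
  push_cast at h3 ⊢
  linarith

theorem hVi (hPr : StPr) (hVh : StVh) : StVi := by
  obtain ⟨x1, hx13, hP⟩ := hPr
  obtain ⟨x2, hx23, hV⟩ := hVh
  refine ⟨max (max x1 x2) (Real.exp 27000001), 615, ?_, by norm_num, ?_⟩
  · exact le_trans hx13 (le_trans (le_max_left _ _) (le_max_left _ _))
  intro x y N hx hY hN1 hN2 hG
  have hxx1 : x1 ≤ x := le_trans (le_trans (le_max_left _ _) (le_max_left _ _)) hx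
  have hxx2 : x2 ≤ x := le_trans (le_trans (le_max_right _ _) (le_max_left _ _)) hx
  have hxe : Real.exp 27000001 ≤ x := le_trans (le_max_right _ _) hx
  have hx0 : 0 < x := lt_of_lt_of_le (Real.exp_pos _) hxe
  have hLb : 27000001 ≤ Real.log x := (Real.le_log_iff_exp_le hx0).2 hxe
  obtain ⟨p1, p2, p3, p4, p5, p6, p7, p8, p9, p10, p11, p12, p13, p14⟩ := hP x y hxx1 hY
  have hVt := hV x y N hxx2 hY hN1 hN2 hG
  set L := Real.log x with hL
  have hL0 : 0 < L := by linarith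
  set u := L ^ (1 / 3 : ℝ) with hu
  have hu0 : 0 < u := Real.rpow_pos_of_pos hL0 _
  have hu3 : u ^ 3 = L := by
    rw [hu, ← Real.rpow_natCast, ← Real.rpow_mul hL0.le]; norm_num
  have hu2 : L ^ (2 / 3 : ℝ) = u ^ 2 := by
    rw [hu, ← Real.rpow_natCast, ← Real.rpow_mul hL0.le]; norm_num
  have hum : L ^ (-(1 / 3) : ℝ) = u⁻¹ := by
    rw [hu, Real.rpow_neg hL0.le]
  have hu300 : 300 < u := by
    by_contra hcon
    push Not at hcon
    have : u ^ 3 ≤ 300 ^ 3 := pow_le_pow_left₀ hu0.le hcon 3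
    rw [hu3] at this
    norm_num at this
    linarith
  rw [hu2] at hVt
  have hD : 3 * u ^ 2 < 1 / 100 * L := by
    rw [← hu3]
    have h9 : 0 < u ^ 2 := pow_pos hu0 2
    have h8 : u ^ 2 * 300 < u ^ 2 * u := mul_lt_mul_of_pos_left hu300 h9
    have h7 : u ^ 3 = u ^ 2 * u := by ring
    rw [h7]
    linarith
  have hrho : 0 < rho := by linarith
  -- (1)
  have hlog : ∀ t ≤ t1 x y, L < Real.log (S^[t] N : ℕ) := by
    intro t ht
    have h1 := (abs_le.1 (hVt t ht)).1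
    have h2 : rho * t ≤ rho * t1 x y := by
      apply mul_le_mul_of_nonneg_left _ hrho.le
      exact_mod_cast ht
    linarith
  have hpos : ∀ t ≤ t1 x y, (0 : ℝ) < (S^[t] N : ℕ) := by
    intro t ht
    rcases Nat.eq_zero_or_pos (S^[t] N) with h | h
    · have := hlog t ht
      rw [h] at this
      simp at this
      linarith
    · exact_mod_cast h
  refine ⟨?_, ?_⟩
  · intro t ht
    exact (Real.log_lt_log_iff hx0 (hpos t ht)).1 (hlog t ht)
  -- (2)
  rw [hum]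
  set κ := rho / (L / 100) with hκ
  have hκ0 : 0 < κ := by positivity
  set A := (range (t1 x y + 1)).filter
    (fun t => zl x ≤ (S^[t] N : ℕ) ∧ ((S^[t] N : ℕ) : ℝ) ≤ zr x) with hA
  have hsum : ∑ t ∈ range (t1 x y + 1), kap x (S^[t] N) = (A.card : ℝ) * κ := by
    rw [hA, Finset.card_filter, Nat.cast_sum, Finset.sum_mul]
    apply Finset.sum_congr rfl
    intro t _
    unfold kap
    split_ifs <;> simp [hκ, hL]
  have hzl : 0 < zl x := Real.rpow_pos_of_pos hx0 _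
  have hzr : 0 < zr x := Real.rpow_pos_of_pos hx0 _
  have hlzl : Real.log (zl x) = 103 / 100 * L := by
    unfold zl; rw [Real.log_rpow hx0]
  have hlzr : Real.log (zr x) = 104 / 100 * L := by
    unfold zr; rw [Real.log_rpow hx0]
  -- upper bound
  have hup : A ⊆ Icc ⌈(Real.log y - 104 / 100 * L - 3 * u ^ 2) / rho⌉₊
      ⌊(Real.log y - 103 / 100 * L + 3 * u ^ 2) / rho⌋₊ := by
    intro t ht
    rw [hA, mem_filter, mem_range] at ht
    obtain ⟨ht1, ht2, ht3⟩ := ht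
    have ht1' : t ≤ t1 x y := by omega
    have h1 := abs_le.1 (hVt t ht1')
    have h2 : 103 / 100 * L ≤ Real.log (S^[t] N : ℕ) := by
      rw [← hlzl]; exact Real.log_le_log hzl ht2
    have h3 : Real.log (S^[t] N : ℕ) ≤ 104 / 100 * L := by
      rw [← hlzr]; exact Real.log_le_log (hpos t ht1') ht3
    rw [mem_Icc]
    constructor
    · rw [Nat.ceil_le, div_le_iff₀ hrho]
      linarith [h1.1, h1.2]
    · apply Nat.le_floor
      rw [le_div_iff₀ hrho]
      linarith [h1.1, h1.2]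
  have hlo : Icc ⌈(Real.log y - 104 / 100 * L + 3 * u ^ 2) / rho⌉₊
      ⌊(Real.log y - 103 / 100 * L - 3 * u ^ 2) / rho⌋₊ ⊆ A := by
    intro t ht
    rw [mem_Icc] at ht
    obtain ⟨ha, hb⟩ := ht
    rw [Nat.ceil_le, div_le_iff₀ hrho] at ha
    have hb' : (t : ℝ) ≤ (Real.log y - 103 / 100 * L - 3 * u ^ 2) / rho := by
      refine (Nat.le_floor_iff ?_).1 hb
      apply div_nonneg _ hrho.le
      linarith
    have hb2 := hb'
    rw [le_div_iff₀ hrho] at hb2
    have ht1 : t ≤ t1 x y := by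
      unfold t1
      apply Nat.le_floor
      rw [le_div_iff₀ hrho]
      have : 0 < u ^ 2 := by positivity
      rw [← hL]
      linarith
    rw [hA, mem_filter, mem_range]
    have h1 := abs_le.1 (hVt t ht1)
    refine ⟨by omega, ?_, ?_⟩
    · rw [← Real.log_le_log_iff hzl (hpos t ht1), hlzl]
      linarith [h1.1, h1.2]
    · rw [← Real.log_le_log_iff (hpos t ht1) hzr, hlzr]
      linarith [h1.1, h1.2]
  have hc1 : (A.card : ℝ) ≤ (1 / 100 * L + 6 * u ^ 2) / rho + 1 := by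
    have h1 : (A.card : ℝ) ≤ ((Icc ⌈(Real.log y - 104 / 100 * L - 3 * u ^ 2) / rho⌉₊
      ⌊(Real.log y - 103 / 100 * L + 3 * u ^ 2) / rho⌋₊).card : ℝ) := by
      exact_mod_cast Finset.card_le_card hup
    have hb0 : 0 ≤ (Real.log y - 103 / 100 * L + 3 * u ^ 2) / rho := by
      apply div_nonneg _ hrho.le
      have : 0 < u ^ 2 := by positivity
      linarith
    have h2 := card_up (a := (Real.log y - 104 / 100 * L - 3 * u ^ 2) / rho) hb0 (by
      have : (Real.log y - 104 / 100 * L - 3 * u ^ 2) / rho ≤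
          (Real.log y - 103 / 100 * L + 3 * u ^ 2) / rho := by
        apply div_le_div_of_nonneg_right _ hrho.le
        have : 0 < u ^ 2 := by positivity
        linarith
      linarith)
    refine le_trans h1 (le_trans h2 ?_)
    rw [← sub_div]
    have : Real.log y - 103 / 100 * L + 3 * u ^ 2 - (Real.log y - 104 / 100 * L - 3 * u ^ 2) =
      1 / 100 * L + 6 * u ^ 2 := by ring
    rw [this]
  have hc2 : (1 / 100 * L - 6 * u ^ 2) / rho - 1 ≤ (A.card : ℝ) := by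
    have h1 : ((Icc ⌈(Real.log y - 104 / 100 * L + 3 * u ^ 2) / rho⌉₊
      ⌊(Real.log y - 103 / 100 * L - 3 * u ^ 2) / rho⌋₊).card : ℝ) ≤ (A.card : ℝ) := by
      exact_mod_cast Finset.card_le_card hlo
    have h2 := card_lo (a := (Real.log y - 104 / 100 * L + 3 * u ^ 2) / rho)
      (b := (Real.log y - 103 / 100 * L - 3 * u ^ 2) / rho) (by
        apply div_nonneg _ hrho.le
        have : 0 < u ^ 2 := by positivity
        linarith)
    refine le_trans (le_of_eq ?_) (le_trans h2 h1)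
    rw [← sub_div]
    have : Real.log y - 103 / 100 * L - 3 * u ^ 2 - (Real.log y - 104 / 100 * L + 3 * u ^ 2) =
      1 / 100 * L - 6 * u ^ 2 := by ring
    rw [this]
  have hk1 : κ = 100 * rho / L := by rw [hκ]; field_simp
  have hkL : κ * ((1 / 100 * L) / rho) = 1 := by rw [hk1]; field_simp
  have hkD : κ * ((6 * u ^ 2) / rho) = 600 * u⁻¹ := by
    rw [hk1, ← hu3]; field_simp; norm_num
  have hk0 : κ ≤ 15 * u⁻¹ := by
    rw [hk1, ← hu3]
    rw [div_le_iff₀ (by positivity)]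
    have : 15 * u⁻¹ * u ^ 3 = 15 * u ^ 2 := by field_simp
    rw [this]
    have hu1 : 1 ≤ u ^ 2 := one_le_pow₀ (by linarith)
    linarith
  rw [hsum]
  have e1 : (A.card : ℝ) * κ ≤ 1 + 600 * u⁻¹ + κ := by
    have := mul_le_mul_of_nonneg_right hc1 hκ0.le
    have e : ((1 / 100 * L + 6 * u ^ 2) / rho + 1) * κ =
      κ * ((1 / 100 * L) / rho) + κ * ((6 * u ^ 2) / rho) + κ := by ring
    rw [e, hkL, hkD] at this
    exact this
  have e2 : 1 - 600 * u⁻¹ - κ ≤ (A.card : ℝ) * κ := by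
    have := mul_le_mul_of_nonneg_right hc2 hκ0.le
    have e : ((1 / 100 * L - 6 * u ^ 2) / rho - 1) * κ =
      κ * ((1 / 100 * L) / rho) - κ * ((6 * u ^ 2) / rho) - κ := by ring
    rw [e, hkL, hkD] at this
    exact this
  rw [abs_le]
  constructor <;> linarith

end Pool.Agent.Helper83.ND
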